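import Mathlib

set_option autoImplicit false

namespace Pool.Agent.Results.MP_ecf776_lc.ExpBall

/-- One edit: insert, delete or substitute a single symbol at some position. -/
inductive Edit {α : Type} : List α → List α → Prop
  | ins (p s : List α) (a : α) : Edit (p ++ s) (p ++ a :: s)
  | del (p s : List α) (a : α) : Edit (p ++ a :: s) (p ++ s)
  | sub (p s : List α) (a b : α) : Edit (p ++ a :: s) (p ++ b :: s)

/-- `Steps n u v`: the word `u` is transformed into `v` by a sequence of exactly `n` edits. -/
inductive Steps {α : Type} : ℕ → List α → List α → Prop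
  | zero (u : List α) : Steps 0 u u
  | succ {n : ℕ} {u v w : List α} : Edit u v → Steps n v w → Steps (n + 1) u w

/-- The ball B_k(x): words at edit distance at most `k` from `x`. -/
def ball {α : Type} (x : List α) (k : ℕ) : Language α := {w | ∃ n ≤ k, Steps n x w}

lemma edit_cons {α : Type} (c : α) {u v : List α} (h : Edit u v) : Edit (c :: u) (c :: v) := by
  cases h with
  | ins p s a => exact Edit.ins (c :: p) s a
  | del p s a => exact Edit.del (c :: p) s a
  | sub p s a b => exact Edit.sub (c :: p) s a b

lemma steps_cons {α : Type} (c : α) {n : ℕ} {u v : List α} (h : Steps n u v) :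
    Steps n (c :: u) (c :: v) := by
  induction h with
  | zero u => exact Steps.zero _
  | succ he _ ih => exact Steps.succ (edit_cons c he) ih

lemma steps_ins {α : Type} (z s : List α) : Steps z.length s (z ++ s) := by
  induction z using List.reverseRecOn generalizing s with
  | nil => exact Steps.zero _
  | append_singleton z a ih =>
    rw [List.length_append, List.length_singleton, List.append_assoc]
    exact Steps.succ (Edit.ins [] s a) (ih (a :: s))

def enc {m : ℕ} (S : Finset (Fin m)) (i : Fin m) : Option (Fin m) := if i ∈ S then some i else none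

lemma steps_enc {m : ℕ} (S : Finset (Fin m)) (l : List (Fin m)) {n : ℕ} {s t : List (Option (Fin m))}
    (h : Steps n s t) :
    Steps (n + (l.filter (fun i => i ∉ S)).length) (l.map some ++ s) (l.map (enc S) ++ t) := by
  induction l with
  | nil => simpa using h
  | cons i l ih =>
    by_cases hi : i ∈ S
    · simpa [enc, hi] using steps_cons (some i) ih
    · have := Steps.succ (Edit.sub [] (l.map some ++ s) (some i) none) (steps_cons none ih)
      simpa [enc, hi, add_assoc] using this

def cnt {m : ℕ} (w : List (Option (Fin m))) : ℕ :=
  (Finset.univ.filter (fun i : Fin m => some i ∈ w)).card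

lemma cnt_le {m : ℕ} (p s : List (Option (Fin m))) (a : Option (Fin m)) :
    cnt (p ++ s) ≤ cnt (p ++ a :: s) ∧ cnt (p ++ a :: s) ≤ cnt (p ++ s) + 1 := by
  constructor
  · apply Finset.card_le_card
    intro i hi
    simp only [Finset.mem_filter, Finset.mem_univ, true_and, List.mem_append, List.mem_cons] at hi ⊢
    tauto
  · cases a with
    | none =>
      apply Nat.le_succ_of_le
      apply Finset.card_le_card
      intro i hi
      simp only [Finset.mem_filter, Finset.mem_univ, true_and, List.mem_append, List.mem_cons] at hi ⊢
      rcases hi with h | h | h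
      · exact Or.inl h
      · cases h
      · exact Or.inr h
    | some j =>
      refine le_trans (Finset.card_le_card (t := insert j
        (Finset.univ.filter (fun i : Fin m => some i ∈ p ++ s))) ?_) (Finset.card_insert_le _ _)
      intro i hi
      simp only [Finset.mem_filter, Finset.mem_univ, true_and, List.mem_append, List.mem_cons,
        Finset.mem_insert] at hi ⊢
      rcases hi with h | h | h
      · exact Or.inr (Or.inl h)
      · exact Or.inl (Option.some.inj h)
      · exact Or.inr (Or.inr h)

lemma steps_lower {m n : ℕ} {u v : List (Option (Fin m))} (h : Steps n u v) :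
    v.length + cnt u ≤ u.length + cnt v + n := by
  induction h with
  | zero u => omega
  | succ he _ ih =>
    cases he with
    | ins p s a => have := cnt_le p s a; simp at ih ⊢; omega
    | del p s a => have := cnt_le p s a; simp at ih ⊢; omega
    | sub p s a b => have := cnt_le p s a; have := cnt_le p s b; simp at ih ⊢; omega

lemma sep {m : ℕ} (S T : Finset (Fin m)) (l1 l2 : List (Fin m)) (j : Fin m)
    (hl : List.finRange m = l1 ++ j :: l2) (hjS : j ∈ S) (hjT : j ∉ T)
    (hagree : ∀ i ∈ l1, i ∈ S ↔ i ∈ T) :
    ∃ v, (List.finRange m).map (enc S) ++ v ∈ ball ((List.finRange m).map some) m ∧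
      (List.finRange m).map (enc T) ++ v ∉ ball ((List.finRange m).map some) m := by
  have hlen : l1.length + 1 + l2.length = m := by
    have := congrArg List.length hl
    simp at this; omega
  have hnd : (l1 ++ j :: l2).Nodup := hl ▸ List.nodup_finRange m
  set c := (l1.filter (fun i => i ∉ S)).length with hc
  have hcle : c ≤ l1.length := List.length_filter_le _ _
  refine ⟨List.replicate (m - l2.length - c) none ++ l2.map some, ⟨m, le_rfl, ?_⟩, ?_⟩
  · have h1 := steps_ins (l2.map (enc S) ++ List.replicate (m - l2.length - c) none) (l2.map some)
    have h2 := steps_enc S (l1 ++ [j]) h1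
    have e : (l2.map (enc S) ++ List.replicate (m - l2.length - c) none).length +
        ((l1 ++ [j]).filter (fun i => i ∉ S)).length = m := by
      simp [List.filter_append, hjS]
      simp at hc
      omega
    rw [e] at h2
    rw [hl]
    simpa using h2
  · rintro ⟨n, hn, hst⟩
    have h1 := steps_lower hst
    have h2 : cnt ((List.finRange m).map some) = m := by
      simp [cnt]
    have h3 : cnt ((List.finRange m).map (enc T) ++
        (List.replicate (m - l2.length - c) none ++ l2.map some)) + c + 1 ≤ m := by
      have hsub : (Finset.univ.filter (fun i : Fin m => some i ∈ (List.finRange m).map (enc T) ++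
        (List.replicate (m - l2.length - c) none ++ l2.map some))) ⊆
          (insert j (l1.filter (fun i => i ∉ S)).toFinset)ᶜ := by
        intro i hi
        simp only [Finset.mem_filter, Finset.mem_univ, true_and, List.mem_append, List.mem_map,
          List.mem_replicate] at hi
        simp only [Finset.mem_compl, Finset.mem_insert, List.mem_toFinset, List.mem_filter, not_or]
        have hi' : i ∈ T ∨ i ∈ l2 := by
          rcases hi with ⟨a, -, ha⟩ | ⟨-, h⟩ | ⟨a, ha, h⟩
          · left
            unfold enc at ha
            split_ifs at ha with h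
            exact (Option.some.inj ha) ▸ h
          · cases h
          · right; exact (Option.some.inj h) ▸ ha
        rw [List.nodup_append] at hnd
        obtain ⟨-, hn2, hdis⟩ := hnd
        rw [List.nodup_cons] at hn2
        refine ⟨?_, ?_⟩
        · rintro rfl
          rcases hi' with h | h
          · exact hjT h
          · exact hn2.1 h
        · rintro ⟨h1, h2⟩
          rcases hi' with h | h
          · simp at h2; exact h2 ((hagree i h1).2 h)
          · exact hdis i h1 i (List.mem_cons_of_mem _ h) rfl
      have hcard := Finset.card_le_card hsub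
      rw [Finset.card_compl, Finset.card_insert_of_notMem, List.toFinset_card_of_nodup] at hcard
      · simp only [Fintype.card_fin] at hcard
        unfold cnt
        omega
      · exact ((List.nodup_append.mp hnd).1).filter _
      · simp only [List.mem_toFinset, List.mem_filter, not_and]
        intro h
        exact absurd rfl ((List.nodup_append.mp hnd).2.2 j h j List.mem_cons_self)
    simp only [List.length_append, List.length_map, List.length_finRange, List.length_replicate,
      h2] at h1
    omega

lemma first_diff {m : ℕ} (S T : Finset (Fin m)) (l : List (Fin m)) (h : ∃ i ∈ l, ¬ (i ∈ S ↔ i ∈ T)) :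
    ∃ l1 j l2, l = l1 ++ j :: l2 ∧ ¬ (j ∈ S ↔ j ∈ T) ∧ ∀ i ∈ l1, i ∈ S ↔ i ∈ T := by
  induction l with
  | nil => simp at h
  | cons a l ih =>
    by_cases ha : a ∈ S ↔ a ∈ T
    · obtain ⟨i, hi, hi2⟩ := h
      rcases List.mem_cons.mp hi with rfl | hi
      · exact absurd ha hi2
      · obtain ⟨l1, j, l2, rfl, h1, h2⟩ := ih ⟨i, hi, hi2⟩
        refine ⟨a :: l1, j, l2, rfl, h1, fun i hi => ?_⟩
        rcases List.mem_cons.mp hi with rfl | hi
        · exact ha
        · exact h2 i hi
    · exact ⟨[], a, l, rfl, ha, by simp⟩

lemma main (m : ℕ) (σ : Type) [Fintype σ] (M : DFA (Option (Fin m)) σ)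
    (hM : M.accepts = ball ((List.finRange m).map some) m) : 2 ^ m ≤ Fintype.card σ := by
  have hinj : Function.Injective
      (fun S : Finset (Fin m) => M.eval ((List.finRange m).map (enc S))) := by
    intro S T hST
    by_contra hne
    have key : ∀ v, ((List.finRange m).map (enc S) ++ v ∈ ball ((List.finRange m).map some) m ↔
        (List.finRange m).map (enc T) ++ v ∈ ball ((List.finRange m).map some) m) := by
      intro v
      rw [← hM, DFA.mem_accepts, DFA.mem_accepts]
      simp only [DFA.eval] at hST ⊢
      rw [DFA.evalFrom_of_append, DFA.evalFrom_of_append, hST]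
    obtain ⟨l1, j, l2, hl, hj, hag⟩ := first_diff S T (List.finRange m) (by
      by_contra hcon
      push Not at hcon
      exact hne (Finset.ext fun i => hcon i (List.mem_finRange i)))
    by_cases hjS : j ∈ S
    · have hjT : j ∉ T := fun h => hj ⟨fun _ => h, fun _ => hjS⟩
      obtain ⟨v, h1, h2⟩ := sep S T l1 l2 j hl hjS hjT hag
      exact h2 ((key v).1 h1)
    · have hjT : j ∈ T := by
        by_contra h; exact hj ⟨fun h' => absurd h' hjS, fun h' => absurd h' h⟩
      obtain ⟨v, h1, h2⟩ := sep T S l1 l2 j hl hjT hjS (fun i hi => (hag i hi).symm)
      exact h2 ((key v).2 h1)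
  have := Fintype.card_le_of_injective _ hinj
  simpa using this

/-- There is c > 0 such that for every N some finite alphabet, word x and radius k with
min(k, |x|) ≥ N have the property that every complete DFA recognising B_k(x) has at least
2^(c min(k, |x|)) states. -/
theorem result :
    ∃ c : ℝ, 0 < c ∧ ∀ N : ℕ, ∃ (α : Type) (_ : Fintype α) (x : List α) (k : ℕ),
      N ≤ min k x.length ∧
      ∀ (σ : Type) [Fintype σ] (M : DFA α σ), M.accepts = ball x k →
        (2 : ℝ) ^ (c * (min k x.length : ℕ)) ≤ Fintype.card σ := by
  refine ⟨1, one_pos, fun N => ⟨Option (Fin N), inferInstance, (List.finRange N).map some, N,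
    by simp, fun σ _ M hM => ?_⟩⟩
  have := main N σ M hM
  simp only [List.length_map, List.length_finRange, min_self, one_mul, Real.rpow_natCast]
  exact_mod_cast this

end Pool.Agent.Results.MP_ecf776_lc.ExpBall
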